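import Mathlib

/-!
# Rational quaternions: anisotropy of `a ^ 3 + 2 * b ^ 3`, pairs of anticommuting units
-/

set_option autoImplicit false

namespace Pool.Agent.W290.QH

/-- the rational quaternions -/
abbrev H : Type := Quaternion ℚ

/-- the unit `i` -/
def qi : H := ⟨0, 1, 0, 0⟩
/-- the unit `j` -/
def qj : H := ⟨0, 0, 1, 0⟩

@[simp] theorem qi_re : qi.re = 0 := rfl
@[simp] theorem qi_imI : qi.imI = 1 := rfl
@[simp] theorem qi_imJ : qi.imJ = 0 := rfl
@[simp] theorem qi_imK : qi.imK = 0 := rfl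
@[simp] theorem qj_re : qj.re = 0 := rfl
@[simp] theorem qj_imI : qj.imI = 0 := rfl
@[simp] theorem qj_imJ : qj.imJ = 1 := rfl
@[simp] theorem qj_imK : qj.imK = 0 := rfl

@[simp] theorem h0_re : (0 : H).re = 0 := rfl
@[simp] theorem h0_imI : (0 : H).imI = 0 := rfl
@[simp] theorem h0_imJ : (0 : H).imJ = 0 := rfl
@[simp] theorem h0_imK : (0 : H).imK = 0 := rfl
@[simp] theorem h1_re : (1 : H).re = 1 := rfl
@[simp] theorem h1_imI : (1 : H).imI = 0 := rfl
@[simp] theorem h1_imJ : (1 : H).imJ = 0 := rfl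
@[simp] theorem h1_imK : (1 : H).imK = 0 := rfl

theorem charZero_H : CharZero H := charZero_of_injective_algebraMap (algebraMap ℚ H).injective

theorem cube_ne_four (r : ℚ) : r ^ 3 ≠ 4 := by
  intro h
  have hr : r ≠ 0 := by
    rintro rfl
    norm_num at h
  have h1 : padicValRat 2 (r ^ 3) = 3 * padicValRat 2 r := by
    rw [padicValRat.pow]; norm_num
  have h2 : padicValRat 2 (4 : ℚ) = 2 := by
    have : (4 : ℚ) = ((4 : ℕ) : ℚ) := by norm_num
    rw [this, padicValRat.of_nat]
    have h3 : padicValNat 2 4 = 2 := by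
      have h4 : (4 : ℕ) = 2 ^ 2 := by norm_num
      rw [h4, padicValNat.prime_pow]
    rw [h3]; norm_num
  rw [h, h2] at h1
  omega

theorem aniso {a b : H} (h : a * (a * a) + 2 * (b * (b * b)) = 0) : a = 0 ∧ b = 0 := by
  have h1 : a * (a * a) = -(2 * (b * (b * b))) := eq_neg_of_add_eq_zero_left h
  have h2 := congrArg Quaternion.normSq h1
  rw [Quaternion.normSq_neg, map_mul, map_mul, map_mul, map_mul, map_mul] at h2
  have h3 : Quaternion.normSq (2 : H) = 4 := by
    have := Quaternion.normSq_natCast (R := ℚ) 2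
    push_cast at this
    rw [this]; norm_num
  rw [h3] at h2
  have hb : b = 0 := by
    by_contra hb
    have hb' : Quaternion.normSq b ≠ 0 := Quaternion.normSq_ne_zero.2 hb
    apply cube_ne_four (Quaternion.normSq a / Quaternion.normSq b)
    field_simp
    linarith
  refine ⟨?_, hb⟩
  rw [hb, map_zero] at h2
  have : Quaternion.normSq a ^ 3 = 0 := by linarith
  exact Quaternion.normSq_eq_zero.1 (pow_eq_zero_iff (by norm_num) |>.1 this)

/-- the homomorphism attached to a pair of anticommuting square roots of `-1` -/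
theorem exists_hom {u v : H} (hu : u * u + 1 = 0) (hv : v * v + 1 = 0) (huv : u * v + v * u = 0) :
    ∃ φ : H →ₐ[ℚ] H, φ qi = u ∧ φ qj = v ∧ Function.Bijective φ := by
  let B : QuaternionAlgebra.Basis H (-1 : ℚ) 0 (-1) :=
    { i := u
      j := v
      k := u * v
      i_mul_i := by
        rw [eq_neg_of_add_eq_zero_left hu]; simp
      j_mul_j := by
        rw [eq_neg_of_add_eq_zero_left hv]; simp
      i_mul_j := rfl
      j_mul_i := by
        rw [eq_neg_of_add_eq_zero_right huv]; simp }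
  let φ : H →ₐ[ℚ] H := B.liftHom
  have hinj : Function.Injective φ := φ.toRingHom.injective
  refine ⟨φ, ?_, ?_, hinj, ?_⟩
  · show B.lift qi = u
    simp [QuaternionAlgebra.Basis.lift, B]
  · show B.lift qj = v
    simp [QuaternionAlgebra.Basis.lift, B]
  · exact (LinearMap.injective_iff_surjective (f := φ.toLinearMap)).1 hinj

/-- `-2` times the conjugate -/
def cj (u v w : H) : H := w + (u * (w * u) + (v * (w * v) + (u * v) * (w * (u * v))))

theorem cj_std (z : H) : cj qi qj z = (-2 : ℚ) • star z := by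
  unfold cj
  ext <;> simp <;> ring

/-- everything about a pair of anticommuting square roots of `-1` -/
theorem main_uv {u v : H} (hu : u * u + 1 = 0) (hv : v * v + 1 = 0) (huv : u * v + v * u = 0) :
    ∃ N : H → ℚ, (∀ w, 0 ≤ N w) ∧ (∀ w, N w = 0 → w = 0) ∧ (∀ w, w * cj u v w = ((-2 * N w : ℚ) : H)) ∧
      ∀ w, w * u = u * w → w * v = v * w → ∃ r : ℚ, w = (r : H) := by
  obtain ⟨φ, hφu, hφv, hφ⟩ := exists_hom hu hv huv
  choose ψ hψ using hφ.2
  refine ⟨fun w => Quaternion.normSq (ψ w), fun w => Quaternion.normSq_nonneg, fun w hw => ?_,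
    fun w => ?_, fun w h1 h2 => ?_⟩
  · rw [← hψ w, Quaternion.normSq_eq_zero.1 hw, map_zero]
  · have h1 : cj u v w = φ (cj qi qj (ψ w)) := by
      unfold cj
      simp only [map_add, map_mul, hφu, hφv, hψ]
    have h3 : w * φ ((-2 : ℚ) • star (ψ w)) = φ ((-2 : ℚ) • (ψ w * star (ψ w))) := by
      rw [map_smul, map_smul, map_mul, hψ, mul_smul_comm]
    rw [h1, cj_std, h3, Quaternion.self_mul_star]
    have h4 : (-2 : ℚ) • ((Quaternion.normSq (ψ w) : ℚ) : H) =
        ((-2 * Quaternion.normSq (ψ w) : ℚ) : H) := by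
      ext <;> simp
    exact (congrArg φ h4).trans (φ.commutes _)
  · have hz : ψ w * qi = qi * ψ w := by
      apply hφ.1
      rw [map_mul, map_mul, hψ, hφu, h1]
    have hz' : ψ w * qj = qj * ψ w := by
      apply hφ.1
      rw [map_mul, map_mul, hψ, hφv, h2]
    have e1 := congrArg (fun q : H => q.imJ) hz
    have e2 := congrArg (fun q : H => q.imK) hz
    have e3 := congrArg (fun q : H => q.imK) hz'
    simp at e1 e2 e3
    refine ⟨(ψ w).re, ?_⟩
    have h0 : ψ w = (((ψ w).re : ℚ) : H) := by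
      ext
      · simp
      · simp; linarith
      · simp; linarith
      · simp; linarith
    have h5 : w = φ (((ψ w).re : ℚ) : H) := by rw [← h0, hψ]
    exact h5.trans (φ.commutes _)

end Pool.Agent.W290.QH
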