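import Pool.Agent.W463.H10.Nexp
import Pool.Agent.W290.QH.Quat

/-!
# Hilbert's tenth problem over `ℚ` reduces to equations over the rational quaternions
-/

set_option autoImplicit false

namespace Pool.Agent.W290.QH

open Pool.Agent Pool.Agent.NPC Pool.Agent.H528R2 Pool.Agent.W463.H10

attribute [local instance] charZero_H

/-- The value at `q` of the noncommutative polynomial with the list of terms `p`: the pair
`(c, [i₁, …, i_k])` stands for `c * x i₁ * ⋯ * x i_k`, in this order. -/
def valueH (q : ℕ → H) (p : List (ℤ × List ℕ)) : H :=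
  (p.map fun t => (t.1 : H) * (t.2.map q).prod).sum

/-- The noncommutative polynomial `p` has a zero in the rational quaternions. -/
def QuatZero (p : List (ℤ × List ℕ)) : Prop := ∃ q : ℕ → H, valueH q p = 0

theorem valueH_nil (q : ℕ → H) : valueH q [] = 0 := rfl

theorem valueH_cons (q : ℕ → H) (t : ℤ × List ℕ) (p : List (ℤ × List ℕ)) :
    valueH q (t :: p) = (t.1 : H) * (t.2.map q).prod + valueH q p := by
  simp [valueH]

theorem valueH_append (q : ℕ → H) (p r : List (ℤ × List ℕ)) :
    valueH q (p ++ r) = valueH q p + valueH q r := by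
  simp [valueH]

theorem valueH_mul_aux (q : ℕ → H) (s : ℤ × List ℕ) (r : List (ℤ × List ℕ)) :
    valueH q (r.map fun t => (s.1 * t.1, s.2 ++ t.2)) =
      (s.1 : H) * (s.2.map q).prod * valueH q r := by
  induction r with
  | nil => simp [valueH]
  | cons t r ih =>
    rw [List.map_cons, valueH_cons, ih, valueH_cons]
    simp only [List.map_append, List.prod_append]
    push_cast
    rw [mul_add]
    congr 1
    have h1 : ((t.1 : ℤ) : H) * (s.2.map q).prod = (s.2.map q).prod * ((t.1 : ℤ) : H) :=
      (Int.cast_commute t.1 _).eq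
    simp only [mul_assoc]
    rw [← mul_assoc ((t.1 : ℤ) : H) (s.2.map q).prod, h1, mul_assoc]

theorem valueH_mulT (q : ℕ → H) (p r : List (ℤ × List ℕ)) :
    valueH q (mulT p r) = valueH q p * valueH q r := by
  induction p with
  | nil => simp [valueH, mulT]
  | cons s p ih =>
    have : mulT (s :: p) r = (r.map fun t => (s.1 * t.1, s.2 ++ t.2)) ++ mulT p r := rfl
    rw [this, valueH_append, ih, valueH_mul_aux, valueH_cons, add_mul]

/-- `a ^ 3 + 2 * b ^ 3` -/
def an (a b : List (ℤ × List ℕ)) : List (ℤ × List ℕ) :=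
  mulT a (mulT a a) ++ mulT [(2, [])] (mulT b (mulT b b))

theorem valueH_an (q : ℕ → H) (a b : List (ℤ × List ℕ)) :
    valueH q (an a b) = 0 ↔ valueH q a = 0 ∧ valueH q b = 0 := by
  have h2 : valueH q [(2, [])] = 2 := by simp [valueH]
  rw [an, valueH_append, valueH_mulT, valueH_mulT, valueH_mulT, valueH_mulT, valueH_mulT, h2]
  constructor
  · exact aniso
  · rintro ⟨h, h'⟩
    rw [h, h']; simp

/-- the relations of two anticommuting square roots of `-1` -/
def relT : List (ℤ × List ℕ) :=
  an (an [(1, [0, 0]), (1, [])] [(1, [1, 1]), (1, [])]) [(1, [0, 1]), (1, [1, 0])]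

theorem valueH_relT (q : ℕ → H) : valueH q relT = 0 ↔
    (q 0 * q 0 + 1 = 0 ∧ q 1 * q 1 + 1 = 0) ∧ q 0 * q 1 + q 1 * q 0 = 0 := by
  rw [relT, valueH_an, valueH_an]
  simp [valueH]

/-- `-2` times the conjugate -/
def cjT (w : List (ℤ × List ℕ)) : List (ℤ × List ℕ) :=
  w ++ (mulT [(1, [0])] (mulT w [(1, [0])]) ++ (mulT [(1, [1])] (mulT w [(1, [1])]) ++
    mulT [(1, [0, 1])] (mulT w [(1, [0, 1])])))

theorem valueH_cjT (q : ℕ → H) (w : List (ℤ × List ℕ)) :
    valueH q (cjT w) = cj (q 0) (q 1) (valueH q w) := by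
  have h0 : valueH q [(1, [0])] = q 0 := by simp [valueH]
  have h1 : valueH q [(1, [1])] = q 1 := by simp [valueH]
  have h2 : valueH q [(1, [0, 1])] = q 0 * q 1 := by simp [valueH]
  simp only [cjT, valueH_append, valueH_mulT, h0, h1, h2, cj]

/-- the sum of the norms -/
def sumN (ws : List (List (ℤ × List ℕ))) : List (ℤ × List ℕ) := ws.flatMap fun w => mulT w (cjT w)

theorem valueH_sumN (q : ℕ → H) (h : valueH q relT = 0) (ws : List (List (ℤ × List ℕ))) :
    valueH q (sumN ws) = 0 ↔ ∀ w ∈ ws, valueH q w = 0 := by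
  obtain ⟨⟨hu, hv⟩, huv⟩ := (valueH_relT q).1 h
  obtain ⟨N, hN0, hN, hN2, -⟩ := main_uv hu hv huv
  have key : ∀ l : List (List (ℤ × List ℕ)),
      valueH q (sumN l) = ((-2 * (l.map fun w => N (valueH q w)).sum : ℚ) : H) := by
    intro l
    induction l with
    | nil => simp [sumN, valueH]
    | cons w l ih =>
      have e : sumN (w :: l) = mulT w (cjT w) ++ sumN l := rfl
      rw [e, valueH_append, valueH_mulT, valueH_cjT, hN2, ih, List.map_cons, List.sum_cons,
        mul_add, Rat.cast_add]
  rw [key]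
  constructor
  · intro h0
    have h1 : (-2 * (ws.map fun w => N (valueH q w)).sum : ℚ) = 0 := Rat.cast_eq_zero.1 h0
    have h2 : (ws.map fun w => N (valueH q w)).sum = 0 := by linarith
    clear h0 h1 key
    induction ws with
    | nil => intro w hw; simp at hw
    | cons w l ih =>
      rw [List.map_cons, List.sum_cons] at h2
      have h3 : 0 ≤ (l.map fun w => N (valueH q w)).sum :=
        List.sum_nonneg (fun x hx => by
          obtain ⟨w', _, rfl⟩ := List.mem_map.1 hx
          exact hN0 _)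
      have h4 := hN0 (valueH q w)
      intro w' hw'
      rcases List.mem_cons.1 hw' with rfl | hw'
      · exact hN _ (by linarith)
      · exact ih (by linarith) w' hw'
  · intro h0
    have h1 : (ws.map fun w => N (valueH q w)).sum = 0 := by
      apply List.sum_eq_zero
      intro x hx
      obtain ⟨w, hw, rfl⟩ := List.mem_map.1 hx
      rw [h0 w hw]
      have h5 := hN2 0
      rw [zero_mul] at h5
      have h6 : (-2 * N 0 : ℚ) = 0 := Rat.cast_eq_zero.1 h5.symm
      linarith
    rw [h1]; simp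

/-- commutation of the variable `i` with the first two variables -/
def comT (i : ℕ) : List (List (ℤ × List ℕ)) :=
  [[(1, [i + 2, 0]), (-1, [0, i + 2])], [(1, [i + 2, 1]), (-1, [1, i + 2])]]

/-- shift of the variables -/
def shT (p : List (ℤ × List ℕ)) : List (ℤ × List ℕ) :=
  p.map fun t => (t.1, t.2.map fun i => i + 2)

/-- the list of the conditions: all variables are central, and `p` vanishes -/
def conds (p : List (ℤ × List ℕ)) : List (List (ℤ × List ℕ)) :=
  shT p :: p.flatMap fun t => t.2.flatMap comT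

/-- the noncommutative polynomial attached to `p` -/
def quatT (p : List (ℤ × List ℕ)) : List (ℤ × List ℕ) := an relT (sumN (conds p))

theorem valueH_shT (q : ℕ → H) (x : ℕ → ℚ) (p : List (ℤ × List ℕ))
    (h : ∀ t ∈ p, ∀ i ∈ t.2, q (i + 2) = ((x i : ℚ) : H)) :
    valueH q (shT p) = ((value x p : ℚ) : H) := by
  induction p with
  | nil => simp [shT, valueH, value]
  | cons t p ih =>
    have e : shT (t :: p) = (t.1, t.2.map fun i => i + 2) :: shT p := rfl
    rw [e, valueH_cons, ih (fun s hs => h s (List.mem_cons_of_mem _ hs)), value_cons,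
      Rat.cast_add, Rat.cast_mul]
    congr 1
    have h1 : ∀ l : List ℕ, (∀ i ∈ l, q (i + 2) = ((x i : ℚ) : H)) →
        ((l.map fun i => i + 2).map q).prod = (((l.map x).prod : ℚ) : H) := by
      intro l hl
      induction l with
      | nil => simp
      | cons i l ihl =>
        rw [List.map_cons, List.map_cons, List.prod_cons, List.map_cons, List.prod_cons,
          Rat.cast_mul, ihl (fun j hj => hl j (List.mem_cons_of_mem _ hj)),
          hl i (List.mem_cons_self ..)]
    rw [h1 t.2 (h t (List.mem_cons_self ..))]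
    simp

theorem quatZero_quatT (p : List (ℤ × List ℕ)) : QuatZero (quatT p) ↔ RatZero p := by
  constructor
  · rintro ⟨q, hq⟩
    obtain ⟨h1, h2⟩ := (valueH_an q _ _).1 hq
    have h3 := (valueH_sumN q h1 _).1 h2
    obtain ⟨⟨hu, hv⟩, huv⟩ := (valueH_relT q).1 h1
    obtain ⟨-, -, -, -, hc⟩ := main_uv hu hv huv
    have h4 : ∀ i : ℕ, ∃ r : ℚ, (∃ t ∈ p, i ∈ t.2) → q (i + 2) = (r : H) := by
      intro i
      by_cases hi : ∃ t ∈ p, i ∈ t.2
      · obtain ⟨t, ht, hit⟩ := hi
        have h5 : ∀ w ∈ comT i, valueH q w = 0 := fun w hw =>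
          h3 w (List.mem_cons_of_mem _ (List.mem_flatMap.2 ⟨t, ht, List.mem_flatMap.2 ⟨i, hit, hw⟩⟩))
        have h6 := h5 [(1, [i + 2, 0]), (-1, [0, i + 2])] (by simp [comT])
        have h7 := h5 [(1, [i + 2, 1]), (-1, [1, i + 2])] (by simp [comT])
        simp only [valueH, List.map_cons, List.map_nil, List.prod_cons, List.prod_nil,
          List.sum_cons, List.sum_nil] at h6 h7
        have h8 : q (i + 2) * q 0 = q 0 * q (i + 2) := by
          have : q (i + 2) * q 0 - q 0 * q (i + 2) = 0 := by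
            rw [← h6]; simp [sub_eq_add_neg]
          exact sub_eq_zero.1 this
        have h9 : q (i + 2) * q 1 = q 1 * q (i + 2) := by
          have : q (i + 2) * q 1 - q 1 * q (i + 2) = 0 := by
            rw [← h7]; simp [sub_eq_add_neg]
          exact sub_eq_zero.1 this
        obtain ⟨r, hr⟩ := hc _ h8 h9
        exact ⟨r, fun _ => hr⟩
      · exact ⟨0, fun h => absurd h hi⟩
    choose x hx using h4
    refine ⟨x, ?_⟩
    have h5 := valueH_shT q x p (fun t ht i hi => hx i ⟨t, ht, hi⟩)
    rw [h3 (shT p) (List.mem_cons_self ..)] at h5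
    have h6 := congrArg (fun z : H => z.re) h5
    simpa using h6.symm
  · rintro ⟨x, hx⟩
    let q : ℕ → H := fun n => if n = 0 then qi else if n = 1 then qj else ((x (n - 2) : ℚ) : H)
    have hq : ∀ i, q (i + 2) = ((x i : ℚ) : H) := fun i => by simp [q]
    have q0 : q 0 = qi := rfl
    have q1 : q 1 = qj := rfl
    have hrel : valueH q relT = 0 := by
      rw [valueH_relT, q0, q1]
      refine ⟨⟨?_, ?_⟩, ?_⟩ <;> ext <;> simp
    refine ⟨q, (valueH_an q _ _).2 ⟨hrel, (valueH_sumN q hrel _).2 ?_⟩⟩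
    intro w hw
    rcases List.mem_cons.1 hw with rfl | hw
    · rw [valueH_shT q x p (fun t _ i _ => hq i), hx]; simp
    · obtain ⟨t, _, hw⟩ := List.mem_flatMap.1 hw
      obtain ⟨i, _, hw⟩ := List.mem_flatMap.1 hw
      have hcm : ∀ z : H, q (i + 2) * z = z * q (i + 2) := by
        intro z
        rw [hq i]
        exact (Rat.cast_commute (x i) z).eq
      simp only [comT, List.mem_cons, List.not_mem_nil, or_false] at hw
      rcases hw with rfl | rfl
      · simp only [valueH, List.map_cons, List.map_nil, List.prod_cons, List.prod_nil,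
          List.sum_cons, List.sum_nil, mul_one, hcm (q 0)]
        simp
      · simp only [valueH, List.map_cons, List.map_nil, List.prod_cons, List.prod_nil,
          List.sum_cons, List.sum_nil, mul_one, hcm (q 1)]
        simp

section

variable {α : Type} [TEnc α]

theorem poly_an {a b : α → List (ℤ × List ℕ)} (ha : NPC.Poly a) (hb : NPC.Poly b) :
    NPC.Poly (fun x => an (a x) (b x)) := by
  unfold an
  exact NPC.Poly.append (poly_mulT ha (poly_mulT ha ha))
    (poly_mulT (NPC.Poly.const _) (poly_mulT hb (poly_mulT hb hb)))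

theorem poly_cjT {w : α → List (ℤ × List ℕ)} (hw : NPC.Poly w) :
    NPC.Poly (fun x => cjT (w x)) := by
  unfold cjT
  exact NPC.Poly.append hw (NPC.Poly.append
    (poly_mulT (NPC.Poly.const _) (poly_mulT hw (NPC.Poly.const _)))
    (NPC.Poly.append (poly_mulT (NPC.Poly.const _) (poly_mulT hw (NPC.Poly.const _)))
      (poly_mulT (NPC.Poly.const _) (poly_mulT hw (NPC.Poly.const _)))))

theorem poly_sumN {ws : α → List (List (ℤ × List ℕ))} (hw : NPC.Poly ws) :
    NPC.Poly (fun x => sumN (ws x)) := by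
  unfold sumN
  refine NPC.Poly.flatMap hw ?_
  exact poly_mulT (NPC.Poly.snd NPC.Poly.id) (poly_cjT (NPC.Poly.snd NPC.Poly.id))

theorem poly_comT {i : α → ℕ} (hi : NPC.Poly i) : NPC.Poly (fun x => comT (i x)) := by
  have h2 : NPC.Poly (fun x => i x + 2) := NPC.Poly.add hi (NPC.Poly.const 2)
  have hn : NPC.Poly (fun _ : α => ([] : List ℕ)) := NPC.Poly.const _
  have hN : NPC.Poly (fun _ : α => ([] : List (ℤ × List ℕ))) := NPC.Poly.const _
  have hNN : NPC.Poly (fun _ : α => ([] : List (List (ℤ × List ℕ)))) := NPC.Poly.const _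
  have p1 : NPC.Poly (fun _ : α => (1 : ℤ)) := NPC.Poly.const _
  have m1 : NPC.Poly (fun _ : α => (-1 : ℤ)) := NPC.Poly.const _
  have c0 : NPC.Poly (fun _ : α => (0 : ℕ)) := NPC.Poly.const _
  have c1 : NPC.Poly (fun _ : α => (1 : ℕ)) := NPC.Poly.const _
  unfold comT
  exact .cons (.cons (.pair p1 (.cons h2 (.cons c0 hn))) (.cons (.pair m1 (.cons c0 (.cons h2 hn))) hN))
    (.cons (.cons (.pair p1 (.cons h2 (.cons c1 hn))) (.cons (.pair m1 (.cons c1 (.cons h2 hn))) hN))
      hNN)

theorem poly_shT {p : α → List (ℤ × List ℕ)} (hp : NPC.Poly p) :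
    NPC.Poly (fun x => shT (p x)) := by
  unfold shT
  refine NPC.Poly.map hp ?_
  refine NPC.Poly.pair (NPC.Poly.fst (NPC.Poly.snd NPC.Poly.id)) ?_
  exact NPC.Poly.map (NPC.Poly.snd (NPC.Poly.snd NPC.Poly.id))
    (NPC.Poly.add (NPC.Poly.snd NPC.Poly.id) (NPC.Poly.const 2))

theorem poly_conds {p : α → List (ℤ × List ℕ)} (hp : NPC.Poly p) :
    NPC.Poly (fun x => conds (p x)) := by
  unfold conds
  refine NPC.Poly.cons (poly_shT hp) (NPC.Poly.flatMap hp ?_)
  exact NPC.Poly.flatMap (NPC.Poly.snd (NPC.Poly.snd NPC.Poly.id))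
    (poly_comT (NPC.Poly.snd NPC.Poly.id))

theorem poly_quatT {p : α → List (ℤ × List ℕ)} (hp : NPC.Poly p) :
    NPC.Poly (fun x => quatT (p x)) := by
  unfold quatT
  exact poly_an (NPC.Poly.const _) (poly_sumN (poly_conds hp))

end

/-- the reduction -/
theorem red_quat : ∃ f : List (ℤ × List ℕ) → List (ℤ × List ℕ),
    (∃ F : List Bool → List Bool, PolyTime F ∧ ∀ p, F (bits p) = bits (f p)) ∧
    ∀ p, RatZero p ↔ QuatZero (f p) := by
  refine ⟨quatT, ⟨_, polyTime_opt (Poly.optMap (o := unbits (List (ℤ × List ℕ)))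
    (f := fun _ a => quatT a) poly_unbits (poly_quatT (NPC.Poly.snd NPC.Poly.id))),
    fun p => ?_⟩, fun p => (quatZero_quatT p).symm⟩
  simp [unbits_bits]

theorem hardX_quat : HardX QuatZero := by
  refine hardX_QSat.trans (f := fun S => quatT (quartT S)) (poly_quatT poly_quartT) fun S => ?_
  rw [quatZero_quatT, ratZero_quartT]

end Pool.Agent.W290.QH
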