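import Pool.Agent.H528R2.Hier
import Pool.Agent.W290.QH.Red

/-!
# Equations over the rational quaternions: definability of `ℚ`, hardness
-/

set_option autoImplicit false

namespace Pool.Agent.W290.QH

open Pool.Agent Pool.Agent.NPC Pool.Agent.H528R2 Pool.Agent.W463.H10

/-- all words of `p` have at most `d` letters -/
def Dg (d : ℕ) (p : List (ℤ × List ℕ)) : Prop := ∀ t ∈ p, t.2.length ≤ d

theorem Dg.mono {d e : ℕ} {p : List (ℤ × List ℕ)} (hp : Dg d p) (h : d ≤ e) : Dg e p :=
  fun t ht => (hp t ht).trans h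

theorem Dg.append {d : ℕ} {p q : List (ℤ × List ℕ)} (hp : Dg d p) (hq : Dg d q) :
    Dg d (p ++ q) := by
  intro t ht
  rcases List.mem_append.1 ht with h | h
  · exact hp t h
  · exact hq t h

theorem Dg.mulT {d e m : ℕ} {p q : List (ℤ × List ℕ)} (hp : Dg d p) (hq : Dg e q)
    (h : d + e ≤ m) : Dg m (mulT p q) := by
  intro t ht
  unfold Pool.Agent.W463.H10.mulT at ht
  obtain ⟨s, hs, ht⟩ := List.mem_flatMap.1 ht
  obtain ⟨u, hu, rfl⟩ := List.mem_map.1 ht
  have a1 := hp s hs
  have b1 := hq u hu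
  simp only [List.length_append]
  omega

theorem Dg.an {d m : ℕ} {a b : List (ℤ × List ℕ)} (ha : Dg d a) (hb : Dg d b) (h : 3 * d ≤ m) :
    Dg m (an a b) := by
  have h0 : Dg 0 [((2 : ℤ), ([] : List ℕ))] := by
    intro t ht
    simp only [List.mem_cons, List.not_mem_nil, or_false] at ht
    rw [ht]; simp
  exact Dg.append (Dg.mulT ha (Dg.mulT ha ha le_rfl) (by omega))
    (Dg.mulT h0 (Dg.mulT hb (Dg.mulT hb hb le_rfl) le_rfl) (by omega))

theorem Dg.one {c : ℤ} {l : List ℕ} {d : ℕ} (h : l.length ≤ d) : Dg d [(c, l)] := by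
  intro t ht
  simp only [List.mem_cons, List.not_mem_nil, or_false] at ht
  rw [ht]; exact h

theorem Dg.two {c c' : ℤ} {l l' : List ℕ} {d : ℕ} (h : l.length ≤ d) (h' : l'.length ≤ d) :
    Dg d [(c, l), (c', l')] := Dg.append (p := [(c, l)]) (Dg.one h) (Dg.one h')

theorem Dg.cjT {d m : ℕ} {w : List (ℤ × List ℕ)} (hw : Dg d w) (h : d + 4 ≤ m) : Dg m (cjT w) := by
  have h1 : Dg 1 [((1 : ℤ), [0])] := Dg.one (by simp)
  have h2 : Dg 1 [((1 : ℤ), [1])] := Dg.one (by simp)
  have h3 : Dg 2 [((1 : ℤ), [0, 1])] := Dg.one (by simp)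
  exact Dg.append (hw.mono (by omega)) (Dg.append (Dg.mulT h1 (Dg.mulT hw h1 le_rfl) (by omega))
    (Dg.append (Dg.mulT h2 (Dg.mulT hw h2 le_rfl) (by omega))
      (Dg.mulT h3 (Dg.mulT hw h3 le_rfl) (by omega))))

theorem Dg.sumN {d m : ℕ} {ws : List (List (ℤ × List ℕ))} (h : ∀ w ∈ ws, Dg d w)
    (hm : 2 * d + 4 ≤ m) : Dg m (sumN ws) := by
  intro t ht
  unfold QH.sumN at ht
  obtain ⟨w, hw, ht⟩ := List.mem_flatMap.1 ht
  exact Dg.mulT (h w hw) (Dg.cjT (h w hw) le_rfl) (by omega) t ht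

theorem dg_relT : Dg 18 relT :=
  Dg.an (Dg.an (Dg.two (by simp) (by simp)) (Dg.two (by simp) (by simp)) (le_refl (3 * 2)))
    ((Dg.two (d := 2) (by simp) (by simp)).mono (by omega)) le_rfl

theorem dg_quatT {p : List (ℤ × List ℕ)} (hp : Dg 4 p) : Dg 54 (quatT p) := by
  refine Dg.an dg_relT ((Dg.sumN (d := 4) (fun w hw => ?_) le_rfl).mono (by omega)) le_rfl
  rcases List.mem_cons.1 hw with rfl | hw
  · intro t ht
    obtain ⟨s, hs, rfl⟩ := List.mem_map.1 ht
    simpa using hp s hs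
  · obtain ⟨t, _, hw⟩ := List.mem_flatMap.1 hw
    obtain ⟨i, _, hw⟩ := List.mem_flatMap.1 hw
    simp only [comT, List.mem_cons, List.not_mem_nil, or_false] at hw
    rcases hw with rfl | rfl
    · exact Dg.two (by simp) (by simp)
    · exact Dg.two (by simp) (by simp)

theorem hardX_quat54 : HardX (fun p : List (ℤ × List ℕ) => Dg 54 p ∧ QuatZero p) := by
  refine hardX_QSat.trans (f := fun S => quatT (quartT S)) (poly_quatT poly_quartT) fun S => ?_
  rw [quatZero_quatT, ratZero_quartT]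
  exact ⟨fun h => ⟨dg_quatT fun t ht => length_quartT ht, h⟩, fun h => h.2⟩

theorem nexp_quat (L : Set (List Bool)) (hL : InNEXP L) :
    ∃ f : List Bool → List (ℤ × List ℕ), PolyTime (fun w => bits (f w)) ∧
      (∀ w, ∀ t ∈ f w, t.2.length ≤ 54) ∧ ∀ w, w ∈ L ↔ QuatZero (f w) := by
  obtain ⟨f, hf, hfL⟩ := hardX_QSat L hL
  refine ⟨fun w => quatT (quartT (f w)), ?_,
    fun w => dg_quatT fun t ht => length_quartT ht,
    fun w => (hfL w).trans ((ratZero_quartT _).symm.trans (quatZero_quatT _).symm)⟩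
  have h1 : PC (fun x : List Bool => x) (bits : List (ℤ × List ℕ) → List Bool)
      (fun w => quatT (quartT (f w))) :=
    PC.comp (eb := (bits : List ER.Con → List Bool)) (g := fun S => quatT (quartT S)) (f := f)
      (poly_quatT poly_quartT) hf
  exact PC.toPolyTime h1

/-- a pair of anticommuting square roots of `-1` commuting with `x` exists iff `x` is rational; one
equation -/
theorem definable (x : H) : (∃ r : ℚ, x = (r : H)) ↔
    ∃ q : ℕ → H, q 2 = x ∧ valueH q (an relT (sumN (comT 0))) = 0 := by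
  constructor
  · rintro ⟨r, rfl⟩
    let q : ℕ → H := fun n => if n = 0 then qi else if n = 1 then qj else (r : H)
    have hrel : valueH q relT = 0 := by
      rw [valueH_relT]
      have q0 : q 0 = qi := rfl
      have q1 : q 1 = qj := rfl
      rw [q0, q1]
      refine ⟨⟨?_, ?_⟩, ?_⟩ <;> ext <;> simp
    refine ⟨q, rfl, (valueH_an q _ _).2 ⟨hrel, (valueH_sumN q hrel _).2 ?_⟩⟩
    intro w hw
    have hcm : ∀ z : H, q 2 * z = z * q 2 := fun z => (Rat.cast_commute r z).eq
    simp only [comT, List.mem_cons, List.not_mem_nil, or_false] at hw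
    rcases hw with rfl | rfl
    · simp only [valueH, List.map_cons, List.map_nil, List.prod_cons, List.prod_nil,
        List.sum_cons, List.sum_nil, mul_one, zero_add, hcm (q 0)]
      simp
    · simp only [valueH, List.map_cons, List.map_nil, List.prod_cons, List.prod_nil,
        List.sum_cons, List.sum_nil, mul_one, zero_add, hcm (q 1)]
      simp
  · rintro ⟨q, rfl, hq⟩
    obtain ⟨h1, h2⟩ := (valueH_an q _ _).1 hq
    have h3 := (valueH_sumN q h1 _).1 h2
    obtain ⟨⟨hu, hv⟩, huv⟩ := (valueH_relT q).1 h1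
    obtain ⟨-, -, -, -, hc⟩ := main_uv hu hv huv
    have h6 := h3 [(1, [0 + 2, 0]), (-1, [0, 0 + 2])] (by simp [comT])
    have h7 := h3 [(1, [0 + 2, 1]), (-1, [1, 0 + 2])] (by simp [comT])
    simp only [valueH, List.map_cons, List.map_nil, List.prod_cons, List.prod_nil,
      List.sum_cons, List.sum_nil, zero_add] at h6 h7
    refine hc _ ?_ ?_
    · have : q 2 * q 0 - q 0 * q 2 = 0 := by
        rw [← h6]; simp [sub_eq_add_neg]
      exact sub_eq_zero.1 this
    · have : q 2 * q 1 - q 1 * q 2 = 0 := by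
        rw [← h7]; simp [sub_eq_add_neg]
      exact sub_eq_zero.1 this

end Pool.Agent.W290.QH
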