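import Pool.Agent.W290.HP.Main
import Pool.Agent.W290.QH.Main

/-!
# Equations over quaternions which are solvable everywhere locally
-/

set_option autoImplicit false

namespace Pool.Agent.W290.QH

open Pool.Agent Pool.Agent.NPC Pool.Agent.H528R2 Pool.Agent.W463.H10 Pool.Agent.W290.LG
  Pool.Agent.W290.HP

/-- The value at `q` (elements of a ring `A`) of the noncommutative polynomial with the list of
terms `p`: the pair `(c, [i₁, …, i_k])` stands for `c * x i₁ * ⋯ * x i_k`, in this order. -/
def valueR {A : Type} [Ring A] (q : ℕ → A) (p : List (ℤ × List ℕ)) : A :=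
  (p.map fun t => (t.1 : A) * (t.2.map q).prod).sum

/-- The noncommutative polynomial `p` has a zero in the quaternions over the field `K`. -/
def QZeroIn (K : Type) [Field K] (p : List (ℤ × List ℕ)) : Prop :=
  ∃ q : ℕ → Quaternion K, valueR q p = 0

/-- `p` has degree at most `54` and has zeros in the quaternions over `ℝ`, over `ℚ_q` for every
prime number `q`, over every field of characteristic `0` which contains a square root of `2`, `17`
or `34`, and over every field of characteristic `0` in which the polynomial `P` has a zero. -/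
def PromQ {n : ℕ} (P : MvPolynomial (Fin n) ℤ) (p : List (ℤ × List ℕ)) : Prop :=
  (∀ t ∈ p, t.2.length ≤ 54) ∧ QZeroIn ℝ p ∧ (∀ (q : ℕ) [Fact q.Prime], QZeroIn ℚ_[q] p) ∧
  (∀ (K : Type) [Field K] [CharZero K], (∃ x : K, x ^ 2 = 2 ∨ x ^ 2 = 17 ∨ x ^ 2 = 34) →
    QZeroIn K p) ∧
  ∀ (K : Type) [Field K] [CharZero K], (∃ x : Fin n → K, MvPolynomial.aeval x P = 0) → QZeroIn K p

theorem qZeroIn_rat (p : List (ℤ × List ℕ)) : QZeroIn ℚ p ↔ QuatZero p := Iff.rfl

section

variable {A : Type} [Ring A]

theorem valueR_cons (q : ℕ → A) (t : ℤ × List ℕ) (p : List (ℤ × List ℕ)) :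
    valueR q (t :: p) = (t.1 : A) * (t.2.map q).prod + valueR q p := by
  simp [valueR]

theorem valueR_append (q : ℕ → A) (p r : List (ℤ × List ℕ)) :
    valueR q (p ++ r) = valueR q p + valueR q r := by
  simp [valueR]

theorem valueR_mul_aux (q : ℕ → A) (s : ℤ × List ℕ) (r : List (ℤ × List ℕ)) :
    valueR q (r.map fun t => (s.1 * t.1, s.2 ++ t.2)) =
      (s.1 : A) * (s.2.map q).prod * valueR q r := by
  induction r with
  | nil => simp [valueR]
  | cons t r ih =>
    rw [List.map_cons, valueR_cons, ih, valueR_cons]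
    simp only [List.map_append, List.prod_append]
    push_cast
    rw [mul_add]
    congr 1
    have h1 : ((t.1 : ℤ) : A) * (s.2.map q).prod = (s.2.map q).prod * ((t.1 : ℤ) : A) :=
      (Int.cast_commute t.1 _).eq
    simp only [mul_assoc]
    rw [← mul_assoc ((t.1 : ℤ) : A) (s.2.map q).prod, h1, mul_assoc]

theorem valueR_mulT (q : ℕ → A) (p r : List (ℤ × List ℕ)) :
    valueR q (mulT p r) = valueR q p * valueR q r := by
  induction p with
  | nil => simp [valueR, mulT]
  | cons s p ih =>
    have : mulT (s :: p) r = (r.map fun t => (s.1 * t.1, s.2 ++ t.2)) ++ mulT p r := rfl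
    rw [this, valueR_append, ih, valueR_mul_aux, valueR_cons, add_mul]

theorem valueR_an (q : ℕ → A) (a b : List (ℤ × List ℕ)) (ha : valueR q a = 0)
    (hb : valueR q b = 0) : valueR q (an a b) = 0 := by
  rw [an, valueR_append, valueR_mulT, valueR_mulT, valueR_mulT, valueR_mulT, ha, hb]
  simp

theorem valueR_sumN (q : ℕ → A) (ws : List (List (ℤ × List ℕ)))
    (h : ∀ w ∈ ws, valueR q w = 0) : valueR q (sumN ws) = 0 := by
  induction ws with
  | nil => simp [sumN, valueR]
  | cons w l ih =>
    have e : sumN (w :: l) = mulT w (cjT w) ++ sumN l := rfl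
    rw [e, valueR_append, valueR_mulT, h w (List.mem_cons_self ..), zero_mul,
      ih (fun v hv => h v (List.mem_cons_of_mem _ hv)), zero_add]

end

theorem valueR_shT {K : Type} [Field K] (q : ℕ → Quaternion K) (x : ℕ → K)
    (p : List (ℤ × List ℕ)) (h : ∀ i, q (i + 2) = algebraMap K (Quaternion K) (x i)) :
    valueR q (shT p) = algebraMap K (Quaternion K) (valueK x p) := by
  induction p with
  | nil => simp [shT, valueR, valueK]
  | cons t p ih =>
    have e : shT (t :: p) = (t.1, t.2.map fun i => i + 2) :: shT p := rfl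
    rw [e, valueR_cons, ih, valueK_cons, map_add, map_mul, map_intCast]
    congr 2
    have h1 : ∀ l : List ℕ, ((l.map fun i => i + 2).map q).prod =
        algebraMap K (Quaternion K) (l.map x).prod := by
      intro l
      induction l with
      | nil => simp
      | cons i l ihl =>
        rw [List.map_cons, List.map_cons, List.prod_cons, List.map_cons, List.prod_cons,
          map_mul, ihl, h]
    exact h1 t.2

section

variable (K : Type) [Field K]

/-- the unit `i` -/
def gi : Quaternion K := ⟨0, 1, 0, 0⟩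
/-- the unit `j` -/
def gj : Quaternion K := ⟨0, 0, 1, 0⟩

@[simp] theorem gi_re : (gi K).re = 0 := rfl
@[simp] theorem gi_imI : (gi K).imI = 1 := rfl
@[simp] theorem gi_imJ : (gi K).imJ = 0 := rfl
@[simp] theorem gi_imK : (gi K).imK = 0 := rfl
@[simp] theorem gj_re : (gj K).re = 0 := rfl
@[simp] theorem gj_imI : (gj K).imI = 0 := rfl
@[simp] theorem gj_imJ : (gj K).imJ = 1 := rfl
@[simp] theorem gj_imK : (gj K).imK = 0 := rfl
@[simp] theorem g1_re : (1 : Quaternion K).re = 1 := rfl
@[simp] theorem g1_imI : (1 : Quaternion K).imI = 0 := rfl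
@[simp] theorem g1_imJ : (1 : Quaternion K).imJ = 0 := rfl
@[simp] theorem g1_imK : (1 : Quaternion K).imK = 0 := rfl

theorem gi_sq : gi K * gi K = -1 := by ext <;> simp
theorem gj_sq : gj K * gj K = -1 := by ext <;> simp
theorem gi_gj : gi K * gj K = -(gj K * gi K) := by ext <;> simp

end

theorem qZeroIn_quatT {K : Type} [Field K] {p : List (ℤ × List ℕ)} (hp : ZeroIn K p) :
    QZeroIn K (quatT p) := by
  obtain ⟨x, hx⟩ := hp
  let u : Quaternion K := gi K
  let v : Quaternion K := gj K
  let q : ℕ → Quaternion K := fun n => if n = 0 then u else if n = 1 then v else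
    algebraMap K (Quaternion K) (x (n - 2))
  have hq : ∀ i, q (i + 2) = algebraMap K (Quaternion K) (x i) := fun i => by simp [q]
  have huu : u * u = -1 := gi_sq K
  have hvv : v * v = -1 := gj_sq K
  have huv : u * v = -(v * u) := gi_gj K
  have q0 : q 0 = u := rfl
  have q1 : q 1 = v := rfl
  have hrel : valueR q relT = 0 := by
    unfold relT
    refine valueR_an q _ _ (valueR_an q _ _ ?_ ?_) ?_
    · simp [valueR, q0, huu]
    · simp [valueR, q1, hvv]
    · simp [valueR, q0, q1, huv]
  refine ⟨q, valueR_an q _ _ hrel (valueR_sumN q _ fun w hw => ?_)⟩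
  rcases List.mem_cons.1 hw with rfl | hw
  · rw [valueR_shT q x p hq, hx, map_zero]
  · obtain ⟨t, _, hw⟩ := List.mem_flatMap.1 hw
    obtain ⟨i, _, hw⟩ := List.mem_flatMap.1 hw
    have hcm : ∀ z : Quaternion K, q (i + 2) * z = z * q (i + 2) := by
      intro z
      rw [hq i]
      exact Algebra.commutes _ _
    simp only [comT, List.mem_cons, List.not_mem_nil, or_false] at hw
    rcases hw with rfl | rfl
    · simp only [valueR, List.map_cons, List.map_nil, List.prod_cons, List.prod_nil,
        List.sum_cons, List.sum_nil, mul_one, hcm (q 0)]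
      simp
    · simp only [valueR, List.map_cons, List.map_nil, List.prod_cons, List.prod_nil,
        List.sum_cons, List.sum_nil, mul_one, hcm (q 1)]
      simp

theorem partQ_nexp (hG : S_G) {n : ℕ} (P : MvPolynomial (Fin n) ℤ)
    (hP : ∀ x : Fin n → ℚ, MvPolynomial.aeval x P ≠ 0) (L : Set (List Bool)) (hL : InNEXP L) :
    ∃ f : List Bool → List (ℤ × List ℕ), PolyTime (fun w => bits (f w)) ∧
      ∀ w, PromQ P (f w) ∧ (w ∈ L ↔ QZeroIn ℚ (f w)) := by
  obtain ⟨g, hg, hg'⟩ := redP hG P hP
  obtain ⟨f, hf, hfL⟩ := hardX_QSat L hL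
  refine ⟨fun w => quatT (g (f w)), PC.toPolyTime (PC.comp (eb := (bits : List ER.Con → List Bool))
    (g := fun S => quatT (g S)) (f := f) (poly_quatT hg) hf), fun w => ?_⟩
  obtain ⟨⟨h1, h2, h3, h4, h5⟩, h6⟩ := hg' (f w)
  refine ⟨⟨dg_quatT h1, qZeroIn_quatT h2, fun q _ => qZeroIn_quatT (h3 q),
    fun K _ _ hK => qZeroIn_quatT (h4 K hK), fun K _ _ hK => qZeroIn_quatT (h5 K hK)⟩, ?_⟩
  rw [hfL w, h6, qZeroIn_rat, quatZero_quatT, zeroIn_rat]

theorem partQ_fail (hG : S_G) {n : ℕ} (P : MvPolynomial (Fin n) ℤ)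
    (hP : ∀ x : Fin n → ℚ, MvPolynomial.aeval x P ≠ 0) :
    ¬ InNP (lang (fun J => PromQ P J ∧ ¬ QZeroIn ℚ J)) ∧
      ¬ InCoNP (lang (fun J => PromQ P J ∧ ¬ QZeroIn ℚ J)) := by
  have key : NEXPHard (lang (fun J => PromQ P J ∧ ¬ QZeroIn ℚ J))ᶜ := by
    intro L hL
    obtain ⟨f, hf, hfw⟩ := partQ_nexp hG P hP L hL
    refine ⟨fun w => bits (f w), hf, fun w => ?_⟩
    obtain ⟨h1, h3⟩ := hfw w
    rw [h3, Set.mem_compl_iff, bits_mem_lang]
    exact ⟨fun h h' => h'.2 h, fun h => by
      by_contra h'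
      exact h ⟨h1, h'⟩⟩
  constructor
  · intro h
    exact key.not_inCoNP (by unfold InCoNP; rwa [compl_compl])
  · intro h
    exact key.not_inNP h

end Pool.Agent.W290.QH
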